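import Pool.Agent.helper36.BP.SpecE
import Pool.Agent.helper64.HK.PNP

/-!
# bp:SMA, the character sums over the elements of `ℤ[√8]`, nonprincipal case

Helper file for MP_ad8ced_nt (project bp).  Uses the lemmas of `Pool/Agent/helper64/HK/PNP.lean`.
-/

set_option autoImplicit false

open Finset
open Pool.Agent.FI Pool.Agent.HK
open Pool.Agent.CH (nit rgh ll2)
open Pool.Agent.SK (tr0 Th)

noncomputable section

namespace Pool.Agent.BP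

open scoped Classical in
theorem SMA_id (ψ : ℤ × ℤ → ℂ) (j i : ℕ) (κ τ : ℝ) (y : ℕ) :
    ∑ z ∈ FF y, HC ψ j i κ z * nit τ (nn z) = ∑ z ∈ Bx (2 * y), PNP_chi ψ j z * Fyt i κ τ y z := by
  unfold FF Bx
  rw [Finset.sum_filter]
  push_cast
  refine Finset.sum_congr rfl (fun z _ => ?_)
  unfold PNP_chi Fyt Fy Fd HC
  by_cases h1 : z.1 % 2 = 1
  · by_cases h2 : (4 * |z.2| < z.1 ∨ |z.1| < 2 * z.2) ∧ nn z ≤ y
    · rw [if_pos ⟨⟨h1, h2.1⟩, h2.2⟩, if_pos h1, if_pos h2]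
      ring
    · rw [if_neg (fun h => h2 ⟨h.1.2, h.2⟩), if_neg h2, zero_mul, mul_zero]
  · rw [if_neg (fun h => h1 h.1.1), if_neg h1, zero_mul]

theorem SMA_supp (i : ℕ) (κ τ : ℝ) (y : ℕ) (z : ℤ × ℤ) (h : Fyt i κ τ y z ≠ 0) :
    |z.1| ≤ ((2 * y : ℕ) : ℤ) ∧ |z.2| ≤ ((2 * y : ℕ) : ℤ) := by
  refine PNP_supp i κ y z ?_
  intro h0
  apply h
  unfold Fyt
  rw [h0, zero_mul]

theorem SMA (hVAR : VAR_stmt) (hVTT : VTT_stmt) (_hSIZ : SIZ_stmt) : SMA_stmt := by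
  obtain ⟨C, hC, hV⟩ := hVTT
  refine ⟨8 * C, by positivity, ?_⟩
  intro d hd ψ hψ j i hj κ τ hex y
  obtain ⟨w, hw1, hw2, hw3⟩ := PNP_exw d hd ψ hψ j hj hex
  rw [SMA_id]
  have hD : 0 < 2 * d := by
    have := hd.pos
    omega
  have h1 := hVAR (2 * d) hD (PNP_chi ψ j) (PNP_norm d ψ hψ j) (PNP_per d ψ hψ j)
    (PNP_sum d hd ψ hψ j w hw1 hw2 hw3) (2 * y) (Fyt i κ τ y) (SMA_supp i κ τ y)
  refine h1.trans ?_
  have h2 := hV i κ τ y (2 * y)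
  calc (((2 * d : ℕ) : ℝ)) ^ 3 * Va (Fyt i κ τ y) (2 * y)
      ≤ (((2 * d : ℕ) : ℝ)) ^ 3 * (C * (1 + |κ| + |τ| * (1 + Real.log y)) * √(y : ℝ)) :=
        mul_le_mul_of_nonneg_left h2 (by positivity)
    _ = 8 * C * (d : ℝ) ^ 3 * (1 + |κ| + |τ| * (1 + Real.log y)) * √(y : ℝ) := by push_cast; ring

end Pool.Agent.BP
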